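import Pool.Agent.Lib.MP_695abf_an.Main

set_option autoImplicit false

open scoped Topology
open Filter Pool.Agent.Lib.MP_695abf_an

namespace Pool.Agent.Lib.CM38

theorem exists_completion {𝒰 : Type} [CommRing 𝒰] [Algebra ℂ 𝒰] (p : 𝒰 → ℝ) (h0 : p 0 = 0)
    (hadd : ∀ a b, p (a + b) ≤ p a + p b) (hneg : ∀ a, p (-a) = p a)
    (hmul : ∀ a b, p (a * b) ≤ p a * p b) (hsmul : ∀ (r : ℂ) (a : 𝒰), p (r • a) ≤ ‖r‖ * p a) :
    ∃ (B : Type) (_ : NormedCommRing B) (_ : NormedAlgebra ℂ B) (_ : CompleteSpace B)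
      (θ : 𝒰 →ₐ[ℂ] B), ∀ a, ‖θ a‖ = p a := by
  let q : AddGroupSeminorm 𝒰 :=
    { toFun := p
      map_zero' := h0
      add_le' := hadd
      neg' := hneg }
  let sg : SeminormedAddCommGroup 𝒰 := q.toSeminormedAddCommGroup
  let sr : SeminormedCommRing 𝒰 :=
    { sg, (inferInstance : CommRing 𝒰) with norm_mul_le := hmul }
  let na : NormedAlgebra ℂ 𝒰 :=
    { (inferInstance : Algebra ℂ 𝒰) with norm_smul_le := hsmul }
  let θ : 𝒰 →ₐ[ℂ] UniformSpace.Completion 𝒰 :=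
    { UniformSpace.Completion.coeRingHom with commutes' := fun r => rfl }
  exact ⟨UniformSpace.Completion 𝒰, inferInstance, inferInstance, inferInstance, θ,
    fun a => UniformSpace.Completion.norm_coe a⟩

section

variable {𝒜 : Type} [CommRing 𝒜] [Algebra ℂ 𝒜] (S : Submonoid 𝒜) (J : Submodule ℂ 𝒜)

/-- Admissible functionals. -/
def Adm : Set (𝒜 →ₗ[ℂ] ℂ) := {φ | (∀ s ∈ S, ‖φ s‖ ≤ 1) ∧ ∀ w ∈ J, φ w = 0}

/-- The seminorm. -/
noncomputable def nn (a : 𝒜) : ℝ := ⨆ φ : Adm S J, ‖φ.1 a‖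

variable {S J}

theorem nn_bdd {a : 𝒜} (hw : a ∈ Submodule.span ℂ (S : Set 𝒜)) :
    BddAbove (Set.range fun φ : Adm S J => ‖φ.1 a‖) := by
  induction hw using Submodule.span_induction with
  | mem x hx => exact ⟨1, by rintro _ ⟨φ, rfl⟩; exact φ.2.1 x hx⟩
  | zero => exact ⟨0, by rintro _ ⟨φ, rfl⟩; simp⟩
  | add x y _ _ hx hy =>
    obtain ⟨c, hc⟩ := hx
    obtain ⟨c', hc'⟩ := hy
    refine ⟨c + c', ?_⟩
    rintro _ ⟨φ, rfl⟩
    simp only [map_add]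
    exact (norm_add_le _ _).trans (add_le_add (hc ⟨φ, rfl⟩) (hc' ⟨φ, rfl⟩))
  | smul r x _ hx =>
    obtain ⟨c, hc⟩ := hx
    refine ⟨‖r‖ * c, ?_⟩
    rintro _ ⟨φ, rfl⟩
    simp only [map_smul, norm_smul]
    exact mul_le_mul_of_nonneg_left (hc ⟨φ, rfl⟩) (norm_nonneg _)

theorem le_nn {φ : 𝒜 →ₗ[ℂ] ℂ} (hφ : φ ∈ Adm S J) {a : 𝒜}
    (ha : a ∈ Submodule.span ℂ (S : Set 𝒜)) : ‖φ a‖ ≤ nn S J a :=
  le_ciSup (nn_bdd ha) ⟨φ, hφ⟩

theorem nn_le {a : 𝒜} {c : ℝ} (h : ∀ φ ∈ Adm S J, ‖φ a‖ ≤ c) : nn S J a ≤ c := by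
  have : Nonempty (Adm S J) := ⟨⟨0, by simp [Adm]⟩⟩
  exact ciSup_le fun φ => h φ.1 φ.2

theorem nn_nonneg {a : 𝒜} (ha : a ∈ Submodule.span ℂ (S : Set 𝒜)) : 0 ≤ nn S J a :=
  (norm_nonneg _).trans (le_nn (φ := 0) (by simp [Adm]) ha)

theorem nn_mul (hJ : ∀ a : 𝒜, ∀ w ∈ J, a * w ∈ J) {a b : 𝒜}
    (ha : a ∈ Submodule.span ℂ (S : Set 𝒜)) (hb : b ∈ Submodule.span ℂ (S : Set 𝒜)) :
    nn S J (a * b) ≤ nn S J a * nn S J b := by
  refine nn_le fun φ hφ => ?_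
  have h1 : ∀ s ∈ S, ‖φ (s * b)‖ ≤ nn S J b := by
    intro s hs
    refine le_nn (φ := φ.comp (LinearMap.mulLeft ℂ s)) ⟨fun s' hs' => ?_, fun w hw => ?_⟩ hb
    · exact hφ.1 _ (S.mul_mem hs hs')
    · exact hφ.2 _ (hJ s w hw)
  refine le_of_forall_pos_le_add fun ε hε => ?_
  have ha0 := nn_nonneg (J := J) ha
  have hb0 := nn_nonneg (J := J) hb
  set c : ℝ := nn S J b + ε / (nn S J a + 1) with hc
  have hc0 : 0 < c := by positivity
  have h2 := le_nn (S := S) (J := J) (φ := ((c⁻¹ : ℝ) : ℂ) • φ.comp (LinearMap.mulRight ℂ b))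
    ⟨fun s hs => by
      simp only [LinearMap.smul_apply, LinearMap.comp_apply, LinearMap.mulRight_apply, norm_smul,
        Complex.norm_real, Real.norm_eq_abs, abs_of_pos (inv_pos.mpr hc0)]
      rw [inv_mul_le_iff₀ hc0, mul_one]
      exact (h1 s hs).trans (le_add_of_nonneg_right (by positivity)),
    fun w hw => by
      simp only [LinearMap.smul_apply, LinearMap.comp_apply, LinearMap.mulRight_apply]
      rw [mul_comm, hφ.2 _ (hJ b w hw), smul_zero]⟩ ha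
  simp only [LinearMap.smul_apply, LinearMap.comp_apply, LinearMap.mulRight_apply, norm_smul,
    Complex.norm_real, Real.norm_eq_abs, abs_of_pos (inv_pos.mpr hc0)] at h2
  rw [inv_mul_le_iff₀ hc0] at h2
  refine h2.trans ?_
  have h3 : ε / (nn S J a + 1) * nn S J a ≤ ε := by
    rw [div_mul_eq_mul_div, div_le_iff₀ (by positivity)]
    nlinarith
  rw [hc]
  nlinarith

end

/-- The normed space structure of a non-unital subalgebra. -/
@[reducible] noncomputable def subNormed {B : Type} [NormedCommRing B] [NormedAlgebra ℂ B]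
    (U : NonUnitalSubalgebra ℂ B) : NormedSpace ℂ U where
  norm_smul_le c x := norm_smul_le c (x : B)

theorem coe_spow' {B : Type} [NormedCommRing B] [NormedAlgebra ℂ B] (U : NonUnitalSubalgebra ℂ B)
    (a : U) (n : ℕ) : ((spow a n : U) : B) = (a : B) ^ (n + 1) := by
  induction n with
  | zero => simp [spow]
  | succ n ih => rw [spow, pow_succ, ← ih]; rfl

/-- A radical Banach algebra from a multiplicative set, a null ideal and a positive ideal. -/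
theorem exists_model {𝒜 : Type} [CommRing 𝒜] [Algebra ℂ 𝒜] (S : Submonoid 𝒜)
    (J P : Submodule ℂ 𝒜) (hJ : ∀ a : 𝒜, ∀ w ∈ J, a * w ∈ J) (hP : ∀ a : 𝒜, ∀ w ∈ P, a * w ∈ P)
    (hPS : P ≤ Submodule.span ℂ (S : Set 𝒜)) (hnil : ∀ w ∈ P, ∃ n : ℕ, w ^ n ∈ J) :
    ∃ (A : Type) (_ : NonUnitalNormedCommRing A) (_ : NormedSpace ℂ A)
      (_ : IsScalarTower ℂ A A) (_ : SMulCommClass ℂ A A) (_ : CompleteSpace A)
      (Θ : 𝒜 →ₗ[ℂ] A), IsRadical A ∧ DenseRange (Θ.comp P.subtype) ∧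
      (∀ w ∈ P, ∀ w' ∈ P, Θ (w * w') = Θ w * Θ w') ∧ (∀ s ∈ S, s ∈ P → ‖Θ s‖ ≤ 1) ∧
      (∀ w ∈ P, w ∈ J → Θ w = 0) ∧
      ∀ φ : 𝒜 →ₗ[ℂ] ℂ, (∀ s ∈ S, ‖φ s‖ ≤ 1) → (∀ w ∈ J, φ w = 0) → ∀ w ∈ P, ‖φ w‖ ≤ ‖Θ w‖ := by
  let 𝒰 : Subalgebra ℂ 𝒜 := Algebra.adjoin ℂ (S : Set 𝒜)
  have hU : ∀ w, w ∈ 𝒰 ↔ w ∈ Submodule.span ℂ (S : Set 𝒜) := by
    intro w
    have := Algebra.adjoin_eq_span ℂ (S : Set 𝒜)
    rw [Submonoid.closure_eq] at this
    rw [← this]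
    rfl
  obtain ⟨B, _, _, _, θ, hθ⟩ := exists_completion (𝒰 := 𝒰) (fun a => nn S J a.1)
    (le_antisymm (nn_le fun φ _ => by simp) (nn_nonneg (Submodule.zero_mem _)))
    (fun a b => nn_le fun φ hφ => by
      rw [Subalgebra.coe_add, map_add]
      exact (norm_add_le _ _).trans
        (add_le_add (le_nn hφ ((hU _).mp a.2)) (le_nn hφ ((hU _).mp b.2))))
    (fun a => by simp [nn])
    (fun a b => nn_mul hJ ((hU _).mp a.2) ((hU _).mp b.2))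
    (fun r a => nn_le fun φ hφ => by
      rw [Subalgebra.coe_smul, map_smul, norm_smul]
      exact mul_le_mul_of_nonneg_left (le_nn hφ ((hU _).mp a.2)) (norm_nonneg _))
  have hPU : ∀ w ∈ P, w ∈ 𝒰 := fun w hw => (hU w).mpr (hPS hw)
  let ι : P →ₗ[ℂ] B :=
    { toFun := fun w => θ ⟨w.1, hPU _ w.2⟩
      map_add' := fun a b => by rw [← map_add]; rfl
      map_smul' := fun c a => by rw [RingHom.id_apply, ← map_smul]; rfl }
  have hι : ∀ w : P, ι w = θ ⟨w.1, hPU _ w.2⟩ := fun w => rfl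
  have hιm : ∀ w w' : P, ι ⟨w.1 * w'.1, hP _ _ w'.2⟩ = ι w * ι w' := fun w w' => by
    rw [hι, hι, hι, ← map_mul]; rfl
  let U0 : NonUnitalSubalgebra ℂ B := (LinearMap.range ι).toNonUnitalSubalgebra (by
    rintro _ _ ⟨w, rfl⟩ ⟨w', rfl⟩
    exact ⟨_, hιm w w'⟩)
  let U : NonUnitalSubalgebra ℂ B := U0.topologicalClosure
  have hUm : ∀ x : B, x ∈ U ↔ x ∈ closure (Set.range ι) := fun x => Iff.rfl
  have hcl : IsClosed (U : Set B) := isClosed_closure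
  have hcomp : CompleteSpace U := hcl.completeSpace_coe
  let _ : NormedSpace ℂ U := subNormed U
  let ι' : P →ₗ[ℂ] U :=
    { toFun := fun w => ⟨ι w, (hUm _).mpr (subset_closure ⟨w, rfl⟩)⟩
      map_add' := fun a b => Subtype.ext (map_add ι a b)
      map_smul' := fun c a => Subtype.ext (map_smul ι c a) }
  obtain ⟨Θ, hΘ⟩ := LinearMap.exists_extend ι'
  have hΘ' : ∀ w (hw : w ∈ P), (Θ w : B) = ι ⟨w, hw⟩ := fun w hw =>
    congrArg Subtype.val (LinearMap.congr_fun hΘ ⟨w, hw⟩)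
  have hn : ∀ w ∈ P, ‖Θ w‖ = nn S J w := fun w hw => by
    change ‖(Θ w : B)‖ = _
    rw [hΘ' w hw, hι, hθ]
  refine ⟨U, inferInstance, inferInstance, inferInstance, inferInstance, hcomp, Θ, ?_, ?_, ?_,
    ?_, ?_, ?_⟩
  · intro a
    have h4 : (a : B) ∈ closure {x : B | IsNilpotent x} := by
      refine closure_mono ?_ ((hUm _).mp a.2)
      rintro _ ⟨w, rfl⟩
      obtain ⟨n, hn⟩ := hnil w.1 w.2
      refine ⟨n, ?_⟩
      rw [hι, ← map_pow, ← norm_le_zero_iff, hθ]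
      exact nn_le fun φ hφ => by
        rw [Subalgebra.coe_pow, hφ.2 _ hn, norm_zero]
    refine (quasinilpotent_of_mem_closure h4).congr fun n => ?_
    rw [← coe_spow']
    rfl
  · rw [hΘ]
    intro a
    rw [closure_subtype]
    refine closure_mono ?_ ((hUm _).mp a.2)
    rintro _ ⟨w, rfl⟩
    exact ⟨ι' w, ⟨w, rfl⟩, rfl⟩
  · intro w hw w' hw'
    apply Subtype.ext
    change (Θ (w * w') : B) = (Θ w : B) * (Θ w' : B)
    rw [hΘ' w hw, hΘ' w' hw', hΘ' _ (hP _ _ hw')]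
    exact hιm ⟨w, hw⟩ ⟨w', hw'⟩
  · intro s hs hsP
    rw [hn s hsP]
    exact nn_le fun φ hφ => hφ.1 s hs
  · intro w hw hwJ
    rw [← norm_le_zero_iff, hn w hw]
    exact nn_le fun φ hφ => by rw [hφ.2 w hwJ, norm_zero]
  · intro φ h1 h2 w hw
    rw [hn w hw]
    exact le_nn ⟨h1, h2⟩ (hPS hw)

/-- Vector-valued form of the universal property. -/
theorem univ_vec {𝒜 A T : Type} [AddCommGroup 𝒜] [Module ℂ 𝒜] [NormedAddCommGroup A]
    [SeminormedAddCommGroup T] [NormedSpace ℂ T] (S J P : Set 𝒜) (Θ : 𝒜 → A)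
    (h : ∀ φ : 𝒜 →ₗ[ℂ] ℂ, (∀ s ∈ S, ‖φ s‖ ≤ 1) → (∀ w ∈ J, φ w = 0) → ∀ w ∈ P, ‖φ w‖ ≤ ‖Θ w‖)
    (F : 𝒜 →ₗ[ℂ] T) {C : ℝ} (hC : 0 < C) (h1 : ∀ s ∈ S, ‖F s‖ ≤ C) (h2 : ∀ w ∈ J, F w = 0) :
    ∀ w ∈ P, ‖F w‖ ≤ C * ‖Θ w‖ := by
  intro w hw
  obtain ⟨g, hg, hgw⟩ := exists_dual_vector'' ℂ (F w)
  have h3 := h (((C⁻¹ : ℝ) : ℂ) • g.toLinearMap.comp F) (fun s hs => by
    simp only [LinearMap.smul_apply, LinearMap.comp_apply, norm_smul, ContinuousLinearMap.coe_coe,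
      Complex.norm_real, Real.norm_eq_abs, abs_of_pos (inv_pos.mpr hC)]
    rw [inv_mul_le_iff₀ hC, mul_one]
    refine (g.le_opNorm _).trans ?_
    have := mul_le_mul hg (h1 s hs) (norm_nonneg _) zero_le_one
    rwa [one_mul] at this) (fun x hx => by simp [h2 x hx]) w hw
  simp only [LinearMap.smul_apply, LinearMap.comp_apply, norm_smul, ContinuousLinearMap.coe_coe,
    Complex.norm_real, Real.norm_eq_abs, abs_of_pos (inv_pos.mpr hC), hgw] at h3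
  rw [inv_mul_le_iff₀ hC] at h3
  simpa using h3

end Pool.Agent.Lib.CM38
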