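import Pool.Agent.Lib.CM38.Rho

set_option autoImplicit false

open scoped NNRat Topology
open Filter Pool.Agent.Lib.MP_695abf_an

namespace Pool.Agent.Lib.CM38

/-- An operator that is small modulo finite-dimensional subspaces is compact. -/
theorem compact_of_approx {E : Type} [NormedAddCommGroup E] [NormedSpace ℂ E] [CompleteSpace E]
    (T : E →L[ℂ] E) (h : ∀ ε > 0, ∃ F : Submodule ℂ E, FiniteDimensional ℂ F ∧
      ∀ y, ‖F.mkQ (T y)‖ ≤ ε * ‖y‖) : IsCompactOperator T := by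
  refine (isCompactOperator_iff_isCompact_closure_image_closedBall T.toLinearMap one_pos).mpr
    (TotallyBounded.isCompact_of_isClosed (TotallyBounded.closure ?_) isClosed_closure)
  refine Metric.totallyBounded_iff.mpr fun ε hε => ?_
  obtain ⟨F, hF, h1⟩ := h (ε / 4) (by positivity)
  have := FiniteDimensional.proper ℂ F
  have hK : IsCompact (Subtype.val '' Metric.closedBall (0 : F) (‖T‖ + ε)) :=
    (isCompact_closedBall _ _).image continuous_subtype_val
  obtain ⟨t, ht, h2⟩ := Metric.totallyBounded_iff.mp hK.totallyBounded (ε / 2) (by positivity)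
  refine ⟨t, ht, ?_⟩
  rintro _ ⟨y, hy, rfl⟩
  rw [mem_closedBall_zero_iff] at hy
  obtain ⟨z, hz, hz'⟩ := Submodule.Quotient.norm_mk_lt (F.mkQ (T y)) (ε := ε / 4) (by positivity)
  have h3 : ‖z‖ < ε / 2 := by
    have := (h1 y).trans (mul_le_of_le_one_right (by positivity) hy)
    linarith
  have h4 : T y - z ∈ F := (Submodule.Quotient.eq F).mp hz.symm
  have h5 : ‖T y - z‖ ≤ ‖T‖ + ε := by
    have := (T.le_opNorm y).trans (mul_le_of_le_one_right (norm_nonneg _) hy)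
    have := norm_sub_le (T y) z
    linarith
  obtain ⟨c, hc, h6⟩ := Set.mem_iUnion₂.mp
    (h2 ⟨⟨T y - z, h4⟩, mem_closedBall_zero_iff.mpr h5, rfl⟩)
  refine Set.mem_iUnion₂.mpr ⟨c, hc, ?_⟩
  rw [Metric.mem_ball, dist_eq_norm] at h6 ⊢
  change ‖T y - z - c‖ < ε / 2 at h6
  change ‖T y - c‖ < ε
  have := norm_add_le (T y - z - c) z
  rw [show T y - z - c + z = T y - c by abel] at this
  linarith

theorem vals_finite (K : ℕ) : {w | ∃ x : Gn, x.ok ∧ x.k < K ∧ w = x.val}.Finite := by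
  refine Set.Finite.subset (s := ⋃ k ∈ Set.Iio K,
    Set.image2 (fun (y : Amb × ℕ) t => Gn.val ⟨k, y.1, y.2, t⟩) (HH k) (TT k))
    ((Set.finite_Iio K).biUnion fun k _ => (HH_finite k).image2 _ (TT_finite k)) ?_
  rintro _ ⟨x, hx, hk, rfl⟩
  exact Set.mem_biUnion (x := x.k) hk ⟨(x.s, x.e), hx.1, x.t, hx.2, rfl⟩

theorem prods_finite (K n : ℕ) :
    {w | ∃ L : List Gn, (∀ x ∈ L, x.ok ∧ x.k < K) ∧ L.length ≤ n ∧ w = pr Gn.val L}.Finite := by
  induction n with
  | zero =>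
    refine (Set.finite_singleton (1 : Amb)).subset ?_
    rintro _ ⟨L, _, h, rfl⟩
    rw [List.length_eq_zero_iff.mp (Nat.le_zero.mp h)]
    rfl
  | succ n ih =>
    refine ((Set.finite_singleton (1 : Amb)).union
      ((vals_finite K).image2 (fun a b => a * b) ih)).subset ?_
    rintro _ ⟨L, h, hl, rfl⟩
    rcases L with _ | ⟨x, L⟩
    · exact Or.inl rfl
    · have hx := h x List.mem_cons_self
      exact Or.inr ⟨_, ⟨x, hx.1, hx.2, rfl⟩, _, ⟨L, fun y hy => h y (List.mem_cons_of_mem _ hy),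
        by simpa using hl, rfl⟩, (pr_cons _ _ _).symm⟩

theorem long_prod {K : ℕ} {L : List Gn} (h : ∀ x ∈ L, x.ok ∧ x.k < K) (hl : 2 ^ K < L.length) :
    pr Gn.val L ∈ Dg 1 := by
  rw [pr_val]
  refine Submodule.smul_mem _ _ (xmul_mem ?_ _)
  have h1 : (L.map Gn.t).length • (1 / 2 ^ K : ℚ≥0) ≤ (L.map Gn.t).sum :=
    List.card_nsmul_le_sum _ _ (by
      intro t ht
      obtain ⟨x, hx, rfl⟩ := List.mem_map.mp ht
      exact TT_ge (TT_mono (h x hx).2.le (h x hx).1.2))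
  refine lt_of_lt_of_le ?_ h1
  rw [nsmul_eq_mul, List.length_map, mul_one_div, one_lt_div (by positivity)]
  exact_mod_cast hl

theorem shift_val (x : Gn) (η : ℚ≥0) : mon (η, 0) * x.val =
    ((Real.exp (-(x.k * (η : ℝ))) : ℝ) : ℂ) • Gn.val ⟨x.k, x.s, x.e, x.t + η⟩ := by
  have e : mon (x.t + η, 0) = mon (η, 0) * mon (x.t, 0) := by
    rw [← mon_add, add_comm x.t]
    simp
  rw [Gn.val, Gn.val, smul_smul, ← Complex.ofReal_mul, ← Real.exp_add, mul_smul_comm, e, mul_assoc]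
  congr 3
  simp only [Gn.lg]
  push_cast
  ring

variable {A : Type} [NonUnitalNormedCommRing A] [NormedSpace ℂ A] {Θ : Amb →ₗ[ℂ] A}

theorem Model.deep (M : Model Θ) {m K : ℕ} (hm : m ≤ K) {L : List Gn} (h : ∀ x ∈ L, x.ok)
    {x : Gn} (hx : x ∈ L) (hk : K ≤ x.k) :
    ‖Θ (mon (1 / 2 ^ m, 0) * pr Gn.val L)‖ ≤ Real.exp (-(K * ((1 / 2 ^ m : ℚ≥0) : ℝ))) := by
  obtain ⟨L1, L2, rfl⟩ := List.append_of_mem hx
  have e : mon (1 / 2 ^ m, 0) * pr Gn.val (L1 ++ x :: L2) =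
      ((Real.exp (-(x.k * ((1 / 2 ^ m : ℚ≥0) : ℝ))) : ℝ) : ℂ) •
        (pr Gn.val (L1 ++ L2) * Gn.val ⟨x.k, x.s, x.e, x.t + 1 / 2 ^ m⟩) := by
    rw [← mul_smul_comm, ← shift_val, pr_append, pr_append, pr_cons]
    ring
  rw [e, map_smul, norm_smul, Complex.norm_real, Real.norm_of_nonneg (Real.exp_pos _).le]
  by_cases h1 : x.t + 1 / 2 ^ m ≤ 1
  · have h2 : Gn.ok ⟨x.k, x.s, x.e, x.t + 1 / 2 ^ m⟩ :=
      ⟨(h x hx).1, TT_add (h x hx).2 (TT_mono (hm.trans hk) (TT_self m)) h1⟩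
    have h3 : pr Gn.val (L1 ++ L2) ∈ SS := ⟨_, fun y hy => h y (by
      rcases List.mem_append.mp hy with hy | hy <;> simp [hy]), rfl⟩
    refine (mul_le_of_le_one_right (Real.exp_pos _).le
      (M.one _ (SS.mul_mem h3 (val_mem h2)) (Dg_mul _ _ _ (val_pos h2)))).trans ?_
    refine Real.exp_le_exp.mpr (neg_le_neg (mul_le_mul_of_nonneg_right ?_ (by positivity)))
    exact_mod_cast hk
  · have h2 : Gn.val ⟨x.k, x.s, x.e, x.t + 1 / 2 ^ m⟩ ∈ Dg 1 :=
      Submodule.smul_mem _ _ (xmul_mem (not_le.mp h1) _)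
    rw [M.zero _ (Dg_mul _ _ _ h2), norm_zero, mul_zero]
    positivity

variable [IsScalarTower ℂ A A] [SMulCommClass ℂ A A] [CompleteSpace A]

theorem Model.compact_x (M : Model Θ) (m : ℕ) :
    IsCompactOperator (ContinuousLinearMap.mul ℂ A (Θ (mon (1 / 2 ^ m, 0)))) := by
  have hη : (0 : ℚ≥0) < 1 / 2 ^ m := by positivity
  refine compact_of_approx _ fun ε hε => ?_
  have h0 : Tendsto (fun K : ℕ => Real.exp (-(K * ((1 / 2 ^ m : ℚ≥0) : ℝ)))) atTop (𝓝 0) :=
    Real.tendsto_exp_neg_atTop_nhds_zero.comp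
      (tendsto_natCast_atTop_atTop.atTop_mul_const (by exact_mod_cast hη))
  obtain ⟨K, hK1, hK2⟩ := ((h0.eventually (ge_mem_nhds hε)).and (eventually_ge_atTop m)).exists
  let F : Submodule ℂ A := Submodule.span ℂ ((fun w => Θ (mon (1 / 2 ^ m, 0) * w)) ''
    {w | ∃ L : List Gn, (∀ x ∈ L, x.ok ∧ x.k < K) ∧ L.length ≤ 2 ^ K ∧ w = pr Gn.val L})
  refine ⟨F, FiniteDimensional.span_of_finite ℂ ((prods_finite K _).image _), fun y => ?_⟩
  have h1 := univ_vec (SS : Set Amb) (Dg 1) (Dg 0) Θ M.univ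
    (F.mkQ ∘ₗ Θ ∘ₗ LinearMap.mulLeft ℂ (mon (1 / 2 ^ m, 0))) hε (by
      rintro _ ⟨L, h, rfl⟩
      change ‖F.mkQ (Θ (mon (1 / 2 ^ m, 0) * pr Gn.val L))‖ ≤ ε
      by_cases h2 : ∀ x ∈ L, x.k < K
      · by_cases h3 : L.length ≤ 2 ^ K
        · rw [Submodule.mkQ_apply, (Submodule.Quotient.mk_eq_zero F).mpr
            (Submodule.subset_span ⟨_, ⟨L, fun x hx => ⟨h x hx, h2 x hx⟩, h3, rfl⟩, rfl⟩), norm_zero]
          exact hε.le
        · rw [M.zero _ (Dg_mul _ _ _ (long_prod (fun x hx => ⟨h x hx, h2 x hx⟩) (not_le.mp h3))),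
            map_zero, norm_zero]
          exact hε.le
      · push Not at h2
        obtain ⟨x, hx, hk⟩ := h2
        exact (Submodule.Quotient.norm_mk_le F _).trans ((M.deep hK2 h hx hk).trans hK1))
    (fun w hw => by
      change F.mkQ (Θ (mon (1 / 2 ^ m, 0) * w)) = 0
      rw [M.zero _ (Dg_mul _ _ _ hw), map_zero])
  have hc : Continuous F.mkQ := continuous_quot_mk
  refine M.dense.induction_on y (isClosed_le (by fun_prop) (by fun_prop)) fun w => ?_
  have h2 := h1 w.1 w.2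
  change ‖F.mkQ (Θ (mon (1 / 2 ^ m, 0) * w))‖ ≤ _ at h2
  rw [M.mul _ (mon_Dg hη) _ w.2] at h2
  exact h2

theorem Model.compact (M : Model Θ) (a : A) : IsCompactOperator fun b : A => a * b := by
  change IsCompactOperator (ContinuousLinearMap.mul ℂ A a)
  refine M.dense.induction_on a (isClosed_setOfPred_isCompactOperator.preimage
    (ContinuousLinearMap.mul ℂ A).continuous) fun w => ?_
  obtain ⟨w, hw⟩ := w
  change IsCompactOperator (ContinuousLinearMap.mul ℂ A (Θ w))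
  induction hw using Submodule.span_induction with
  | mem x hx =>
    obtain ⟨r, hr, rfl⟩ := hx
    obtain ⟨m, hm⟩ := exists_small hr
    have h1 := (M.compact_x m).comp_clm
      (ContinuousLinearMap.mul ℂ A (Θ (mon (r.1 - 1 / 2 ^ m, r.2))))
    have e : Θ (mon r) = Θ (mon (1 / 2 ^ m, 0)) * Θ (mon (r.1 - 1 / 2 ^ m, r.2)) := by
      rw [← M.mon_mul (by positivity) (tsub_pos_of_lt hm), shift_sub hm]
    have e2 : (ContinuousLinearMap.mul ℂ A (Θ (mon r)) : A → A) =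
        ContinuousLinearMap.mul ℂ A (Θ (mon (1 / 2 ^ m, 0))) ∘
          ContinuousLinearMap.mul ℂ A (Θ (mon (r.1 - 1 / 2 ^ m, r.2))) := by
      funext b
      simp only [e, Function.comp, ContinuousLinearMap.mul_apply', mul_assoc]
    rw [e2]
    exact h1
  | zero =>
    rw [map_zero, map_zero]
    exact isCompactOperator_zero
  | add x y _ _ hx hy =>
    rw [map_add, map_add]
    exact hx.add hy
  | smul c x _ hx =>
    rw [map_smul, map_smul]
    exact hx.smul c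

theorem main : ∃ (A : Type) (_ : NonUnitalNormedCommRing A) (_ : NormedSpace ℂ A)
    (_ : IsScalarTower ℂ A A) (_ : SMulCommClass ℂ A A) (_ : CompleteSpace A),
    Nontrivial A ∧ IsRadical A ∧ Biprojective A ∧
      ∀ a : A, IsCompactOperator fun b : A => a * b := by
  obtain ⟨A, _, _, _, _, _, Θ, h1, h2, h3, h4, h5, h6⟩ :=
    exists_model SS (Dg 1) (Dg 0) (Dg_mul 1) (Dg_mul 0) Dg_le_span Dg_nil
  have M : Model Θ := ⟨h2, h3, h4, fun w hw => h5 w (Dg_le zero_le_one hw) hw, h6⟩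
  refine ⟨A, inferInstance, inferInstance, inferInstance, inferInstance, inferInstance, ?_, h1,
    M.biprojective, M.compact⟩
  refine ⟨Θ (mon (1 / 2, 0)), 0, fun h => ?_⟩
  have h7 := h6 Phi (fun s hs => Phi_SS hs) (fun w hw => Phi_Dg hw) (mon (1 / 2, 0))
    (mon_Dg (by norm_num))
  rw [h, norm_zero, norm_le_zero_iff, Phi_mon] at h7
  simp only [if_true, cut, Complex.ofReal_eq_zero] at h7
  norm_num at h7

end Pool.Agent.Lib.CM38
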