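import Pool.Agent.Lib.CM38.Ban

set_option autoImplicit false

open scoped NNRat Topology
open Filter Pool.Agent.Lib.MP_695abf_an

namespace Pool.Agent.Lib.CM38

/-- The span of the monomials with a given property. -/
noncomputable def Sp (Q : Mon Idx → Prop) : Submodule ℂ Amb := Submodule.span ℂ (mon '' {m | Q m})

theorem mon_mem_Sp {Q : Mon Idx → Prop} {m : Mon Idx} (h : Q m) : mon m ∈ Sp Q :=
  Submodule.subset_span ⟨m, h, rfl⟩

theorem Sp_mono {Q Q' : Mon Idx → Prop} (h : ∀ m, Q m → Q' m) {w : Amb} (hw : w ∈ Sp Q) :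
    w ∈ Sp Q' :=
  Submodule.span_mono (Set.image_mono (fun m hm => h m hm)) hw

theorem Sp_true (w : Amb) : w ∈ Sp fun _ => True := by
  refine Submodule.span_mono ?_ (span_mon w)
  rintro _ ⟨m, rfl⟩
  exact ⟨m, trivial, rfl⟩

theorem Sp_mul {Q Q' R : Mon Idx → Prop} (h : ∀ m m', Q m → Q' m' → R (m + m')) {w w' : Amb}
    (hw : w ∈ Sp Q) (hw' : w' ∈ Sp Q') : w * w' ∈ Sp R := by
  have := Submodule.mul_mem_mul hw hw'
  rw [Sp, Sp, Submodule.span_mul_span] at this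
  refine Submodule.span_mono ?_ this
  rintro _ ⟨_, ⟨m, hm, rfl⟩, _, ⟨m', hm', rfl⟩, rfl⟩
  exact ⟨m + m', h m m' hm hm', mon_add m m'⟩

theorem Sp_ext {T : Type} [AddCommGroup T] [Module ℂ T] {Q : Mon Idx → Prop}
    (F G : Amb →ₗ[ℂ] T) (h : ∀ m, Q m → F (mon m) = G (mon m)) {w : Amb} (hw : w ∈ Sp Q) :
    F w = G w := by
  refine LinearMap.eqOn_span ?_ hw
  rintro _ ⟨m, hm, rfl⟩
  exact h m hm

theorem Sp_zero {T : Type} [AddCommGroup T] [Module ℂ T] {Q : Mon Idx → Prop}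
    (F : Amb →ₗ[ℂ] T) (h : ∀ m, Q m → F (mon m) = 0) {w : Amb} (hw : w ∈ Sp Q) : F w = 0 :=
  Sp_ext F 0 h hw

/-- Monomials of degree larger than a bound. -/
noncomputable def Dg (c : ℚ≥0) : Submodule ℂ Amb := Sp fun m => c < m.1

theorem Dg_mul (c : ℚ≥0) (a : Amb) (w : Amb) (hw : w ∈ Dg c) : a * w ∈ Dg c :=
  Sp_mul (Q' := fun m => c < m.1) (R := fun m => c < m.1)
    (fun m m' _ h => lt_of_lt_of_le h (by simp)) (Sp_true a) hw

theorem xmul_mem {c t : ℚ≥0} (h : c < t) (s : Amb) : mon (t, 0) * s ∈ Dg c := by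
  rw [mul_comm]
  exact Dg_mul c s _ (mon_mem_Sp h)

theorem Dg_le {c c' : ℚ≥0} (h : c ≤ c') {w : Amb} (hw : w ∈ Dg c') : w ∈ Dg c :=
  Sp_mono (Q := fun m => c' < m.1) (Q' := fun m => c < m.1) (fun _ hm => lt_of_le_of_lt h hm) hw

theorem Dg_nil (w : Amb) (hw : w ∈ Dg 0) : ∃ n : ℕ, w ^ n ∈ Dg 1 := by
  have h1 : ∃ c : ℚ≥0, 0 < c ∧ w ∈ Sp fun m => c ≤ m.1 := by
    induction hw using Submodule.span_induction with
    | mem x hx =>
      obtain ⟨m, hm, rfl⟩ := hx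
      exact ⟨m.1, hm, mon_mem_Sp le_rfl⟩
    | zero => exact ⟨1, one_pos, Submodule.zero_mem _⟩
    | add x y _ _ hx hy =>
      obtain ⟨c, hc, hx⟩ := hx
      obtain ⟨c', hc', hy⟩ := hy
      exact ⟨min c c', lt_min hc hc', Submodule.add_mem _
        (Sp_mono (fun m hm => (min_le_left _ _).trans hm) hx)
        (Sp_mono (fun m hm => (min_le_right _ _).trans hm) hy)⟩
    | smul r x _ hx =>
      obtain ⟨c, hc, hx⟩ := hx
      exact ⟨c, hc, Submodule.smul_mem _ _ hx⟩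
  obtain ⟨c, hc, h⟩ := h1
  have h2 : ∀ n : ℕ, w ^ n ∈ Sp fun m => n * c ≤ m.1 := by
    intro n
    induction n with
    | zero => rw [pow_zero, ← mon_zero]; exact mon_mem_Sp (by simp)
    | succ n ih =>
      rw [pow_succ]
      refine Sp_mul (fun m m' h1 h2 => ?_) ih h
      push_cast
      rw [add_mul, one_mul, Prod.fst_add]
      exact add_le_add h1 h2
  obtain ⟨n, hn⟩ := exists_nat_gt c⁻¹
  refine ⟨n, Sp_mono (fun m hm => lt_of_lt_of_le ?_ hm) (h2 n)⟩
  rwa [inv_lt_iff_one_lt_mul₀ hc] at hn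

/-- Only group generators of bounded level occur. -/
def Low (n : ℕ) (m : Mon Idx) : Prop := ∀ i : Idx, n < i.1 → m.2 i = 0

theorem Low.mono {n n' : ℕ} {m : Mon Idx} (h : Low n m) (hn : n ≤ n') : Low n' m :=
  fun i hi => h i (lt_of_le_of_lt hn hi)

theorem Low.add {n : ℕ} {m m' : Mon Idx} (h : Low n m) (h' : Low n m') : Low n (m + m') :=
  fun i hi => by simp [h i hi, h' i hi]

theorem low_gen (n : ℕ) (i : Fin n → Fin 4) (s : ℤ) : Low n (gen n i s) := by
  intro i' hi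
  refine Finsupp.single_eq_of_ne ?_
  rintro rfl
  exact lt_irrefl _ hi

theorem low_ev (m : Mon Idx) : ∀ᶠ n in atTop, Low n m := by
  filter_upwards [eventually_ge_atTop (m.2.support.sup fun i => i.1)] with n hn i hi
  by_contra h
  have := Finset.le_sup (f := fun i : Idx => i.1) (Finsupp.mem_support_iff.mpr h)
  omega

/-- The quadruple number `j` is active at level `n`. -/
def Act (n j : ℕ) : Prop :=
  thr j ≤ n ∧ j ≤ n ∧ Low n (quad j).p ∧ Low n (quad j).q ∧ Low n (quad j).p' ∧ Low n (quad j).q'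

theorem Act.mono {n n' j : ℕ} (h : Act n j) (hn : n ≤ n') : Act n' j :=
  ⟨h.1.trans hn, h.2.1.trans hn, h.2.2.1.mono hn, h.2.2.2.1.mono hn, h.2.2.2.2.1.mono hn,
    h.2.2.2.2.2.mono hn⟩

theorem act_ev (j : ℕ) : ∀ᶠ n in atTop, Act n j :=
  (eventually_ge_atTop _).and ((eventually_ge_atTop _).and ((low_ev _).and ((low_ev _).and
    ((low_ev _).and (low_ev _)))))

/-- The roots of level `n`. -/
def root (n : ℕ) : Set Amb :=
  {s | ∃ j, Act n j ∧ (s = mon (quad j).p ∨ ∃ ω b, s = sv mon n j ω b)}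

theorem root_finite (n : ℕ) : (root n).Finite := by
  refine Set.Finite.subset (s := ⋃ j ∈ Set.Iic n, ({mon (quad j).p} ∪
    Set.range fun x : (Bool × Fin 4 × (Fin n → Fin 4)) × Bool => sv mon n j x.1 x.2))
    ((Set.finite_Iic n).biUnion fun j _ => (Set.finite_singleton _).union (Set.finite_range _)) ?_
  rintro s ⟨j, hj, h⟩
  refine Set.mem_biUnion (x := j) hj.2.1 ?_
  rcases h with h | ⟨ω, b, h⟩
  · exact Or.inl h
  · exact Or.inr ⟨(ω, b), h.symm⟩

theorem root_ball {n : ℕ} {s : Amb} (h : s ∈ root n) : s ∈ ballSet := by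
  obtain ⟨j, hj, rfl | ⟨ω, b, rfl⟩⟩ := h
  · exact mon_mem _
  · rw [← sval_eq]
    exact sval_mem _ hj.1

theorem root_low {n : ℕ} {s : Amb} (h : s ∈ root n) : s ∈ Sp (Low (n + 1)) := by
  obtain ⟨j, ⟨-, -, h1, h2, h3, h4⟩, rfl | ⟨ω, b, rfl⟩⟩ := h
  · exact mon_mem_Sp (h1.mono (Nat.le_succ n))
  · unfold sv
    refine Submodule.add_mem _ (Submodule.smul_mem _ _ (Submodule.sum_mem _ fun i _ =>
      Submodule.smul_mem _ _ (mon_mem_Sp ?_))) (Submodule.smul_mem _ _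
      (Submodule.sum_mem _ fun i _ => Submodule.smul_mem _ _ (mon_mem_Sp ?_)))
    · refine Low.mono (Low.add ?_ (low_gen _ _ _)) (Nat.le_succ n)
      cases b
      · exact h2
      · exact h1
    · refine Low.add (Low.mono ?_ (Nat.le_succ n)) (low_gen _ _ _)
      cases b
      · exact h4
      · exact h3

/-- The summable majorant. -/
noncomputable def aa (n : ℕ) : ℝ := √((n : ℝ) + 1) / ((n : ℝ) + 1) ^ 2

theorem aa_nonneg (n : ℕ) : 0 ≤ aa n := by unfold aa; positivity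

theorem aa_summable : Summable aa := by
  have h := (summable_nat_add_iff 1).mpr
    (Real.summable_one_div_nat_rpow.mpr (by norm_num : (1 : ℝ) < 3 / 2))
  refine h.congr fun n => ?_
  have h0 : (0 : ℝ) < (n : ℝ) + 1 := by positivity
  unfold aa
  push_cast
  rw [Real.sqrt_eq_rpow, div_eq_div_iff (by positivity) (by positivity), one_mul,
    ← Real.rpow_add h0, ← Real.rpow_natCast]
  norm_num

/-- The tails of the majorant. -/
noncomputable def tail (N : ℕ) : ℝ := ∑' n, aa (N + n)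

theorem tail_nonneg (N : ℕ) : 0 ≤ tail N := tsum_nonneg fun _ => aa_nonneg _

theorem tail_tendsto : Tendsto tail atTop (𝓝 0) := by
  refine (tendsto_sum_nat_add aa).congr fun N => ?_
  simp only [tail, add_comm]

/-- Dyadic numbers of order `k` in the unit interval. -/
def TT (k : ℕ) : Set ℚ≥0 := {t | ∃ a : ℕ, 0 < a ∧ a ≤ 2 ^ k ∧ t = a / 2 ^ k}

theorem TT_finite (k : ℕ) : (TT k).Finite := by
  refine Set.Finite.subset ((Set.finite_Iic (2 ^ k)).image fun a : ℕ => (a : ℚ≥0) / 2 ^ k) ?_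
  rintro t ⟨a, _, h, rfl⟩
  exact ⟨a, h, rfl⟩

theorem TT_ge {k : ℕ} {t : ℚ≥0} (h : t ∈ TT k) : 1 / 2 ^ k ≤ t := by
  obtain ⟨a, h1, _, rfl⟩ := h
  have : (1 : ℚ≥0) ≤ a := by exact_mod_cast h1
  gcongr

theorem TT_pos {k : ℕ} {t : ℚ≥0} (h : t ∈ TT k) : 0 < t :=
  lt_of_lt_of_le (by positivity) (TT_ge h)

theorem TT_le {k : ℕ} {t : ℚ≥0} (h : t ∈ TT k) : t ≤ 1 := by
  obtain ⟨a, _, h2, rfl⟩ := h
  rw [div_le_one (by positivity)]
  exact_mod_cast h2

theorem TT_half {k : ℕ} {t : ℚ≥0} (h : t ∈ TT k) : t / 2 ∈ TT (k + 1) := by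
  obtain ⟨a, h1, h2, rfl⟩ := h
  refine ⟨a, h1, h2.trans (Nat.pow_le_pow_right (by norm_num) (Nat.le_succ k)), ?_⟩
  rw [pow_succ, div_div]

theorem TT_mono {k k' : ℕ} (hk : k ≤ k') {t : ℚ≥0} (h : t ∈ TT k) : t ∈ TT k' := by
  induction hk with
  | refl => exact h
  | step _ ih =>
    obtain ⟨a, h1, h2, rfl⟩ := ih
    refine ⟨a * 2, by omega, by rw [pow_succ]; omega, ?_⟩
    push_cast
    rw [pow_succ]
    field_simp

theorem TT_self (m : ℕ) : (1 / 2 ^ m : ℚ≥0) ∈ TT m :=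
  ⟨1, one_pos, Nat.one_le_two_pow, by simp⟩

theorem TT_add {k : ℕ} {t t' : ℚ≥0} (h : t ∈ TT k) (h' : t' ∈ TT k) (hle : t + t' ≤ 1) :
    t + t' ∈ TT k := by
  obtain ⟨a, h1, _, rfl⟩ := h
  obtain ⟨a', _, _, rfl⟩ := h'
  refine ⟨a + a', by omega, ?_, by push_cast; rw [add_div]⟩
  rw [← add_div, div_le_one (by positivity)] at hle
  exact_mod_cast hle

theorem exists_small {c : ℚ≥0} (hc : 0 < c) : ∃ m : ℕ, 1 / 2 ^ m < c := by
  obtain ⟨m, hm⟩ := exists_nat_gt c⁻¹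
  refine ⟨m, ?_⟩
  rw [one_div, inv_lt_comm₀ (by positivity) hc]
  refine hm.trans ?_
  exact_mod_cast Nat.lt_two_pow_self

/-- The sum of the moduli of the coefficients. -/
noncomputable def l1 (s : Amb) : ℝ := ∑ q ∈ s.coeff.support, ‖s.coeff q‖

theorem expand (s : Amb) : s = ∑ q ∈ s.coeff.support, s.coeff q • mon q := by
  conv_lhs => rw [← AddMonoidAlgebra.sum_coeff_single s]
  refine Finset.sum_congr rfl fun q _ => ?_
  simp [mon]

/-- The requirements on the next level. -/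
def GoodLev (k : ℕ) (H : Set (Amb × ℕ)) (N0 N : ℕ) : Prop :=
  N0 < N ∧ Real.exp (4 * (k + 2)) ≤ N ∧ ∀ x ∈ H, Real.exp k * l1 x.1 * tail N ≤ 1 ∧
    ∀ t ∈ TT k, ∀ q ∈ x.1.coeff.support, ∃ j, Act N j ∧ (quad j).p = (t / 4, 0) ∧
      (quad j).q = (t / 4, 0) + q ∧ (quad j).p' = (t / 4, 0) ∧ (quad j).q' = (t / 4, 0) + q

theorem exists_goodLev (k : ℕ) {H : Set (Amb × ℕ)} (hH : H.Finite) (N0 : ℕ) :
    ∃ N, GoodLev k H N0 N := by
  refine Eventually.exists (f := atTop) ((eventually_gt_atTop N0).and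
    ((tendsto_natCast_atTop_atTop.eventually_ge_atTop _).and
      ((eventually_all_finite hH).mpr fun x _ => Eventually.and ?_ ?_)))
  · have := tail_tendsto.const_mul (Real.exp k * l1 x.1)
    rw [mul_zero] at this
    exact this.eventually (ge_mem_nhds one_pos)
  · refine (eventually_all_finite (TT_finite k)).mpr fun t ht =>
      (Finset.eventually_all _).mpr fun q _ => ?_
    have h4 : 0 < t / 4 := div_pos (TT_pos ht) (by norm_num)
    have h5 : 0 < (((t / 4, 0) : Mon Idx) + q).1 := lt_of_lt_of_le h4 (by simp)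
    obtain ⟨j, hj⟩ := quad_surj ⟨(t / 4, 0), (t / 4, 0) + q, (t / 4, 0), (t / 4, 0) + q,
      h4, h5, h4, h5, rfl⟩
    filter_upwards [act_ev j] with n hn
    exact ⟨j, hn, by rw [hj], by rw [hj], by rw [hj], by rw [hj]⟩

/-- One step of the construction. -/
def stepH (k N : ℕ) (H : Set (Amb × ℕ)) : Set (Amb × ℕ) :=
  {x | (∃ y ∈ H, ∃ i, x = (y.1 * mon (gen N i (-1)), y.2)) ∨
    (∃ i, x = (mon (gen N i 1), k + 1)) ∨ ∃ n < N, ∃ s ∈ root n, x = (s, 0)}

theorem stepH_finite (k N : ℕ) {H : Set (Amb × ℕ)} (hH : H.Finite) : (stepH k N H).Finite := by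
  refine Set.Finite.subset (s := (⋃ y ∈ H, Set.range fun i => (y.1 * mon (gen N i (-1)), y.2)) ∪
    ((Set.range fun i => (mon (gen N i 1), k + 1)) ∪
      ⋃ n ∈ Set.Iio N, (fun s => (s, 0)) '' root n))
    ((hH.biUnion fun y _ => Set.finite_range _).union ((Set.finite_range _).union
      ((Set.finite_Iio N).biUnion fun n _ => (root_finite n).image _))) ?_
  rintro x (⟨y, hy, i, h⟩ | ⟨i, h⟩ | ⟨n, hn, s, hs, h⟩)
  · exact Or.inl (Set.mem_biUnion hy ⟨i, h.symm⟩)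
  · exact Or.inr (Or.inl ⟨i, h.symm⟩)
  · exact Or.inr (Or.inr (Set.mem_biUnion (x := n) hn ⟨s, hs, h.symm⟩))

/-- The recursive construction of levels and generators. -/
noncomputable def st : ℕ → ℕ × Set (Amb × ℕ)
  | 0 => (0, ∅)
  | k + 1 => (Classical.epsilon (GoodLev k (st k).2 (st k).1),
      stepH k (Classical.epsilon (GoodLev k (st k).2 (st k).1)) (st k).2)

/-- The levels. -/
noncomputable def NN (k : ℕ) : ℕ := (st k).1

/-- The generators of depth `k`. -/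
noncomputable def HH (k : ℕ) : Set (Amb × ℕ) := (st k).2

theorem HH_zero : HH 0 = ∅ := rfl

theorem HH_succ (k : ℕ) : HH (k + 1) = stepH k (NN (k + 1)) (HH k) := rfl

theorem HH_finite (k : ℕ) : (HH k).Finite := by
  induction k with
  | zero => exact Set.finite_empty
  | succ k ih => exact stepH_finite _ _ ih

theorem NN_good (k : ℕ) : GoodLev k (HH k) (NN k) (NN (k + 1)) :=
  Classical.epsilon_spec (exists_goodLev k (HH_finite k) (NN k))

theorem NN_strictMono : StrictMono NN := strictMono_nat_of_lt_succ fun k => (NN_good k).1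

theorem HH_basic {k : ℕ} : ∀ {x : Amb × ℕ}, x ∈ HH k → x.1 ∈ ballSet ∧ x.2 ≤ k := by
  induction k with
  | zero => intro x hx; exact hx.elim
  | succ k ih =>
    rintro x (⟨y, hy, i, rfl⟩ | ⟨i, rfl⟩ | ⟨n, _, s, hs, rfl⟩)
    · exact ⟨ballSet.mul_mem (ih hy).1 (mon_mem _), (ih hy).2.trans (Nat.le_succ k)⟩
    · exact ⟨mon_mem _, le_rfl⟩
    · exact ⟨root_ball hs, Nat.zero_le _⟩

theorem exists_stage {m n : ℕ} (h : NN (m + 1) ≤ n) :
    ∃ k, m ≤ k ∧ NN (k + 1) ≤ n ∧ n < NN (k + 2) := by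
  classical
  have hex : ∃ k, n < NN (k + 2) :=
    ⟨n, lt_of_lt_of_le (by omega) (NN_strictMono.le_apply (x := n + 2))⟩
  have h1 := Nat.find_spec hex
  have h2 : m ≤ Nat.find hex := by
    have : NN (m + 1) < NN (Nat.find hex + 2) := lt_of_le_of_lt h h1
    have := NN_strictMono.lt_iff_lt.mp this
    omega
  refine ⟨Nat.find hex, h2, ?_, h1⟩
  rcases Nat.eq_zero_or_pos (Nat.find hex) with h0 | h0
  · rw [h0]
    have : m = 0 := by omega
    rwa [this] at h
  · have := Nat.find_min hex (m := Nat.find hex - 1) (by omega)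
    rw [show Nat.find hex - 1 + 2 = Nat.find hex + 1 by omega] at this
    omega

end Pool.Agent.Lib.CM38
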