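import Pool.Agent.Lib.CM38.Gen

set_option autoImplicit false

open scoped NNRat Topology
open Filter Pool.Agent.Lib.MP_695abf_an

namespace Pool.Agent.Lib.CM38

/-- The weight of a level in the potential number `d`. -/
noncomputable def wt (d n : ℕ) : ℝ :=
  if NN (Function.invFun NN n) = n ∧ d ≤ Function.invFun NN n then
    (1 / 2) ^ Function.invFun NN n else 0

theorem wt_NN (d k : ℕ) : wt d (NN k) = if d ≤ k then (1 / 2) ^ k else 0 := by
  have : Function.invFun NN (NN k) = k := Function.leftInverse_invFun NN_strictMono.injective k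
  simp [wt, this]

theorem wt_lt {d n : ℕ} (h : n < NN d) : wt d n = 0 := by
  refine if_neg ?_
  rintro ⟨h1, h2⟩
  have := NN_strictMono.monotone h2
  omega

/-- The potentials. -/
noncomputable def pot (d : ℕ) : (Idx →₀ ℤ) →ₗ[ℤ] ℝ :=
  Finsupp.linearCombination ℤ fun i : Idx => wt d i.1

theorem pot_gen (d n : ℕ) (i : Fin n → Fin 4) (s : ℤ) : pot d (gen n i s).2 = s * wt d n := by
  simp [pot, gen]

theorem pot_low {d n : ℕ} {m : Mon Idx} (h : Low n m) (hn : n < NN d) : pot d m.2 = 0 := by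
  rw [pot, Finsupp.linearCombination_apply]
  refine Finset.sum_eq_zero fun i hi => ?_
  have h1 : i.1 ≤ n := by
    by_contra h2
    exact Finsupp.mem_support_iff.mp hi (h i (by omega))
  simp only [wt_lt (lt_of_le_of_lt h1 hn), smul_zero]

/-- Elements of constant potential. -/
noncomputable def WW (d : ℕ) (c : ℝ) : Submodule ℂ Amb := Sp fun m => pot d m.2 = c

theorem WW_mul {d : ℕ} {c c' : ℝ} {w w' : Amb} (h : w ∈ WW d c) (h' : w' ∈ WW d c') :
    w * w' ∈ WW d (c + c') :=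
  Sp_mul (Q := fun m => pot d m.2 = c) (Q' := fun m => pot d m.2 = c')
    (R := fun m => pot d m.2 = c + c')
    (fun m m' h1 h2 => by rw [Prod.snd_add, map_add, h1, h2]) h h'

theorem gen_WW (d k : ℕ) (i : Fin (NN k) → Fin 4) (s : ℤ) :
    mon (gen (NN k) i s) ∈ WW d (s * if d ≤ k then (1 / 2) ^ k else 0) :=
  mon_mem_Sp (Q := fun m => pot d m.2 = _) (by rw [pot_gen, wt_NN])

theorem Phi_WW {d : ℕ} {c : ℝ} (hc : c ≠ 0) {w : Amb} (h : w ∈ WW d c) : Phi w = 0 := by
  refine Sp_zero (Q := fun m => pot d m.2 = c) Phi (fun m hm => ?_) h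
  rw [Phi_mon, if_neg]
  intro h0
  rw [h0, map_zero] at hm
  exact hc hm.symm

theorem HH_pot (d : ℕ) {k : ℕ} : ∀ {x : Amb × ℕ}, x ∈ HH k →
    (k < d → x.1 ∈ WW d 0) ∧ (1 ≤ d → d ≤ x.2 → x.1 ∈ WW d ((1 / 2) ^ k)) := by
  induction k with
  | zero => intro x hx; exact hx.elim
  | succ k ih =>
    intro x hx
    rw [HH_succ] at hx
    rcases hx with (⟨y, hy, i, rfl⟩ | ⟨i, rfl⟩ | ⟨n, hn, s, hs, rfl⟩)
    · refine ⟨fun h => ?_, fun h h' => ?_⟩
      · have := WW_mul ((ih hy).1 (by omega)) (gen_WW d (k + 1) i (-1))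
        rwa [if_neg (by omega), mul_zero, add_zero] at this
      · have h2 := (HH_basic hy).2
        have := WW_mul ((ih hy).2 h h') (gen_WW d (k + 1) i (-1))
        rw [if_pos (by simp only at h'; omega)] at this
        have e : ((1 : ℝ) / 2) ^ k + ((-1 : ℤ) : ℝ) * (1 / 2) ^ (k + 1) = (1 / 2) ^ (k + 1) := by
          push_cast
          ring
        rwa [e] at this
    · refine ⟨fun h => ?_, fun _ h' => ?_⟩
      · have := gen_WW d (k + 1) i 1
        rwa [if_neg (by omega), mul_zero] at this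
      · have := gen_WW d (k + 1) i 1
        rwa [if_pos h', Int.cast_one, one_mul] at this
    · refine ⟨fun h => ?_, fun h h' => ?_⟩
      · refine Sp_mono (Q' := fun m => pot d m.2 = 0) (fun m hm => pot_low hm ?_) (root_low hs)
        have := NN_strictMono h
        omega
      · simp only at h'
        omega

/-- Data of a generator of the unit ball. -/
structure Gn where
  /-- depth -/
  k : ℕ
  /-- group part -/
  s : Amb
  /-- depth of creation -/
  e : ℕ
  /-- degree -/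
  t : ℚ≥0

/-- Admissible data. -/
def Gn.ok (x : Gn) : Prop := (x.s, x.e) ∈ HH x.k ∧ x.t ∈ TT x.k

/-- Logarithm of the scaling factor. -/
noncomputable def Gn.lg (x : Gn) : ℝ := x.k * (x.t : ℝ) - x.k + x.e

/-- The value of a generator. -/
noncomputable def Gn.val (x : Gn) : Amb := ((Real.exp x.lg : ℝ) : ℂ) • (mon (x.t, 0) * x.s)

/-- The multiplicative set that generates the new unit ball. -/
def SS : Submonoid Amb where
  carrier := {w | ∃ L : List Gn, (∀ x ∈ L, x.ok) ∧ w = pr Gn.val L}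
  one_mem' := ⟨[], by simp, by simp⟩
  mul_mem' := by
    rintro _ _ ⟨L, h, rfl⟩ ⟨L', h', rfl⟩
    refine ⟨L ++ L', fun p hp => ?_, (pr_append _ _ _).symm⟩
    rcases List.mem_append.mp hp with hp | hp
    · exact h p hp
    · exact h' p hp

theorem val_mem {x : Gn} (h : x.ok) : x.val ∈ SS := ⟨[x], by simpa using h, by simp⟩

theorem val_pos {x : Gn} (h : x.ok) : x.val ∈ Dg 0 :=
  Submodule.smul_mem _ _ (xmul_mem (TT_pos h.2) _)

theorem pr_val (L : List Gn) : pr Gn.val L =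
    ((Real.exp (L.map Gn.lg).sum : ℝ) : ℂ) • (mon ((L.map Gn.t).sum, 0) * pr Gn.s L) := by
  induction L with
  | nil =>
    have e : mon ((0 : ℚ≥0), 0) = 1 := mon_zero
    simp [e]
  | cons x L ih =>
    have e : mon (x.t + (L.map Gn.t).sum, 0) = mon (x.t, 0) * mon ((L.map Gn.t).sum, 0) := by
      rw [← mon_add]
      simp
    rw [pr_cons, pr_cons, ih, List.map_cons, List.map_cons, List.sum_cons, List.sum_cons,
      Real.exp_add, e, Gn.val, smul_mul_smul_comm, Complex.ofReal_mul, mul_mul_mul_comm]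

theorem count_paid (L : List Gn) : ∀ D : Finset ℕ, (∀ d ∈ D, ∃ x ∈ L, x.e < d ∧ d ≤ x.k) →
    D.card ≤ (L.map fun x => x.k - x.e).sum := by
  induction L with
  | nil =>
    intro D h
    have : D = ∅ := Finset.eq_empty_of_forall_notMem fun d hd => by simpa using h d hd
    simp [this]
  | cons x L ih =>
    intro D h
    have h1 := ih (D \ Finset.Ioc x.e x.k) fun d hd => by
      obtain ⟨hd1, hd2⟩ := Finset.mem_sdiff.mp hd
      obtain ⟨y, hy, hy'⟩ := h d hd1
      rcases List.mem_cons.mp hy with rfl | hy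
      · exact (hd2 (Finset.mem_Ioc.mpr hy')).elim
      · exact ⟨y, hy, hy'⟩
    have h2 := Finset.card_le_card_sdiff_add_card (s := D) (t := Finset.Ioc x.e x.k)
    rw [Nat.card_Ioc] at h2
    rw [List.map_cons, List.sum_cons]
    omega

theorem lg_sum_le (K : ℕ) (L : List Gn) (h : ∀ x ∈ L, x.k ≤ K ∧ x.e ≤ x.k) :
    (L.map Gn.lg).sum ≤ K * (((L.map Gn.t).sum : ℚ≥0) : ℝ) -
      (((L.map fun x => x.k - x.e).sum : ℕ) : ℝ) := by
  induction L with
  | nil => simp
  | cons x L ih =>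
    have h1 := ih fun y hy => h y (List.mem_cons_of_mem _ hy)
    obtain ⟨h2, h3⟩ := h x List.mem_cons_self
    have h4 : (x.k : ℝ) * (x.t : ℝ) ≤ K * (x.t : ℝ) :=
      mul_le_mul_of_nonneg_right (by exact_mod_cast h2) (by positivity)
    simp only [List.map_cons, List.sum_cons, Nat.cast_add, NNRat.cast_add, Nat.cast_sub h3,
      Gn.lg] at h1 ⊢
    linarith

theorem pr_WW (d : ℕ) (L : List Gn) (h : ∀ x ∈ L, ∃ c, 0 ≤ c ∧ x.s ∈ WW d c) :
    ∃ c, 0 ≤ c ∧ pr Gn.s L ∈ WW d c := by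
  induction L with
  | nil =>
    refine ⟨0, le_rfl, ?_⟩
    rw [pr_nil, ← mon_zero]
    exact mon_mem_Sp (Q := fun m => pot d m.2 = 0) (by simp)
  | cons x L ih =>
    obtain ⟨c, hc, h1⟩ := ih fun y hy => h y (List.mem_cons_of_mem _ hy)
    obtain ⟨c', hc', h2⟩ := h x List.mem_cons_self
    exact ⟨c' + c, add_nonneg hc' hc, by rw [pr_cons]; exact WW_mul h2 h1⟩

theorem pr_ball (L : List Gn) (h : ∀ x ∈ L, x.ok) : pr Gn.s L ∈ ballSet := by
  induction L with
  | nil => exact ballSet.one_mem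
  | cons x L ih =>
    rw [pr_cons]
    exact ballSet.mul_mem (HH_basic (h x List.mem_cons_self).1).1
      (ih fun y hy => h y (List.mem_cons_of_mem _ hy))

/-- The functional is bounded by one on the new ball. -/
theorem Phi_SS {w : Amb} (hw : w ∈ SS) : ‖Phi w‖ ≤ 1 := by
  obtain ⟨L, h, rfl⟩ := hw
  by_cases hL : L = []
  · subst hL
    exact Phi_ball ballSet.one_mem
  obtain ⟨x0, hx0, hmax⟩ := exists_max_list Gn.k L hL
  rw [pr_val, map_smul, norm_smul]
  by_cases ht : 1 ≤ (L.map Gn.t).sum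
  · rw [Phi_vanish _ _ ht]
    simp
  by_cases hp : ∀ d ∈ Finset.Icc 1 x0.k, ∃ x ∈ L, x.e < d ∧ d ≤ x.k
  · have h1 := count_paid L _ hp
    rw [Nat.card_Icc, Nat.add_sub_cancel] at h1
    have h2 := lg_sum_le x0.k L fun x hx => ⟨hmax x hx, (HH_basic (h x hx).1).2⟩
    have h3 : (x0.k : ℝ) ≤ (((L.map fun x => x.k - x.e).sum : ℕ) : ℝ) := by exact_mod_cast h1
    have h4 : (((L.map Gn.t).sum : ℚ≥0) : ℝ) ≤ 1 := by exact_mod_cast (not_le.mp ht).le
    have h5 : (x0.k : ℝ) * (((L.map Gn.t).sum : ℚ≥0) : ℝ) ≤ x0.k :=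
      mul_le_of_le_one_right (by positivity) h4
    refine mul_le_one₀ ?_ (norm_nonneg _) (Phi_ball (ballSet.mul_mem (mon_mem _) (pr_ball L h)))
    rw [Complex.norm_real, Real.norm_of_nonneg (Real.exp_pos _).le, Real.exp_le_one_iff]
    linarith
  · push Not at hp
    obtain ⟨d, hd, hp⟩ := hp
    obtain ⟨hd1, hd2⟩ := Finset.mem_Icc.mp hd
    obtain ⟨L1, L2, rfl⟩ := List.append_of_mem hx0
    have h0 : x0.s ∈ WW d ((1 / 2) ^ x0.k) := by
      refine (HH_pot d (h x0 hx0).1).2 hd1 ?_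
      by_contra h1
      have := hp x0 hx0 (by simp only at h1; omega)
      omega
    obtain ⟨c, hc, h1⟩ := pr_WW d (L1 ++ L2) fun x hx => by
      have hx' : x ∈ L1 ++ x0 :: L2 := by
        rcases List.mem_append.mp hx with hx | hx <;> simp [hx]
      by_cases h2 : x.e < d
      · exact ⟨0, le_rfl, (HH_pot d (h x hx').1).1 (hp x hx' h2)⟩
      · exact ⟨_, by positivity, (HH_pot d (h x hx').1).2 hd1 (not_lt.mp h2)⟩
    have h2 : mon (((L1 ++ x0 :: L2).map Gn.t).sum, 0) ∈ WW d 0 :=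
      mon_mem_Sp (Q := fun m => pot d m.2 = 0) (by simp)
    have h3 := WW_mul h2 (WW_mul h0 h1)
    have e : pr Gn.s (L1 ++ x0 :: L2) = x0.s * pr Gn.s (L1 ++ L2) := by
      rw [pr_append, pr_append, pr_cons]; ring
    rw [e, Phi_WW (by positivity) h3]
    simp

theorem Phi_Dg {w : Amb} (hw : w ∈ Dg 1) : Phi w = 0 := by
  refine Sp_zero (Q := fun m => 1 < m.1) Phi (fun m hm => ?_) hw
  have := Phi_vanish m 1 hm.le
  rwa [mul_one] at this

theorem root_ok {n k : ℕ} (hn : n < NN (k + 1)) {s : Amb} (hs : s ∈ root n) {t : ℚ≥0}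
    (ht : t ∈ TT (k + 1)) : Gn.ok ⟨k + 1, s, 0, t⟩ :=
  ⟨Or.inr (Or.inr ⟨n, hn, s, hs, rfl⟩), ht⟩

theorem Dg_le_span : Dg 0 ≤ Submodule.span ℂ (SS : Set Amb) := by
  refine Submodule.span_le.mpr ?_
  rintro _ ⟨m, hm, rfl⟩
  obtain ⟨r, hr⟩ := exists_small hm
  have h1 : 0 < m.1 - 1 / 2 ^ r := tsub_pos_of_lt hr
  obtain ⟨j, hj⟩ := quad_surj ⟨(m.1 - 1 / 2 ^ r, m.2), (1, 0), (m.1 - 1 / 2 ^ r, m.2), (1, 0),
    h1, one_pos, h1, one_pos, rfl⟩
  obtain ⟨n, hn⟩ := (act_ev j).exists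
  have hok := root_ok (n := n) (k := n + r)
    (lt_of_lt_of_le (by omega) (NN_strictMono.le_apply (x := n + r + 1)))
    ⟨j, hn, Or.inl rfl⟩ (TT_mono (by omega) (TT_self r))
  have h2 := Submodule.smul_mem (Submodule.span ℂ (SS : Set Amb))
    ((Real.exp (Gn.lg ⟨n + r + 1, mon (quad j).p, 0, 1 / 2 ^ r⟩) : ℝ) : ℂ)⁻¹
    (Submodule.subset_span (val_mem hok))
  rw [Gn.val, smul_smul, inv_mul_cancel₀ (by exact_mod_cast (Real.exp_pos _).ne'), one_smul] at h2
  have e : mon m = mon (1 / 2 ^ r, 0) * mon (quad j).p := by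
    rw [← mon_add, hj]
    congr 1
    ext1
    · simp only [Prod.fst_add]
      rw [add_tsub_cancel_of_le hr.le]
    · simp
  rw [e]
  exact h2

end Pool.Agent.Lib.CM38
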