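import Pool.Agent.Lib.CM38.Pot

set_option autoImplicit false

open scoped NNRat Topology
open Filter Pool.Agent.Lib.MP_695abf_an

namespace Pool.Agent.Lib.CM38

variable {A : Type} [NonUnitalNormedCommRing A] [NormedSpace ℂ A]

/-- The properties of the completed algebra that are used below. -/
structure Model (Θ : Amb →ₗ[ℂ] A) : Prop where
  dense : DenseRange (Θ.comp (Dg 0).subtype)
  mul : ∀ w ∈ Dg 0, ∀ w' ∈ Dg 0, Θ (w * w') = Θ w * Θ w'
  one : ∀ s ∈ SS, s ∈ Dg 0 → ‖Θ s‖ ≤ 1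
  zero : ∀ w ∈ Dg 1, Θ w = 0
  univ : ∀ φ : Amb →ₗ[ℂ] ℂ, (∀ s ∈ SS, ‖φ s‖ ≤ 1) → (∀ w ∈ Dg 1, φ w = 0) →
    ∀ w ∈ Dg 0, ‖φ w‖ ≤ ‖Θ w‖

theorem mon_Dg {c : ℚ≥0} {m : Mon Idx} (h : c < m.1) : mon m ∈ Dg c :=
  mon_mem_Sp (Q := fun m => c < m.1) h

theorem tau_diff' (ν : Mon Idx → A) (n j : ℕ) {R : ℝ} (h : ∀ ω b, ‖sv ν n j ω b‖ ≤ R) :
    ‖tau ν (quad j).p (quad j).q n - tau ν (quad j).p' (quad j).q' (n + 1)‖ ≤
      R ^ 2 / ((n : ℝ) + 1) ^ 2 := by
  have h1 : ‖∑ ω, tp (sv ν n j ω true) (sv ν n j ω false)‖ ≤ 8 * 4 ^ n * R ^ 2 := by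
    refine (norm_sum_le _ _).trans ?_
    refine (Finset.sum_le_card_nsmul _ _ (R ^ 2) fun ω _ => ?_).trans ?_
    · refine (norm_tp_le _ _).trans ?_
      rw [sq]
      exact mul_le_mul (h ω true) (h ω false) (norm_nonneg _) ((norm_nonneg _).trans (h ω true))
    · simp only [Finset.card_univ, Fintype.card_prod, Fintype.card_bool, Fintype.card_fin,
        Fintype.card_fun, nsmul_eq_mul]
      push_cast
      linarith
  rw [tau_ident, norm_smul, norm_mul, norm_mul, norm_pow, norm_pow, norm_nat_add_one] at h1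
  simp only [Complex.norm_ofNat] at h1
  rw [le_div_iff₀ (by positivity)]
  have h4 : (0 : ℝ) < 8 * 4 ^ n := by positivity
  nlinarith

theorem norm_le_l1 {T : Type} [NormedAddCommGroup T] [NormedSpace ℂ T] (F : Amb →ₗ[ℂ] T) (s : Amb)
    {c : ℝ} (h : ∀ q ∈ s.coeff.support, ‖F (mon q)‖ ≤ c) : ‖F s‖ ≤ l1 s * c := by
  conv_lhs => rw [expand s]
  rw [map_sum, l1, Finset.sum_mul]
  refine (norm_sum_le _ _).trans (Finset.sum_le_sum fun q hq => ?_)
  rw [map_smul, norm_smul]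
  exact mul_le_mul_of_nonneg_left (h q hq) (norm_nonneg _)

variable {Θ : Amb →ₗ[ℂ] A}

theorem Model.gen_norm (M : Model Θ) {x : Gn} (h : x.ok) :
    ‖Θ (mon (x.t, 0) * x.s)‖ ≤ Real.exp (-x.lg) := by
  have := M.one _ (val_mem h) (val_pos h)
  rw [Gn.val, map_smul, norm_smul, Complex.norm_real,
    Real.norm_of_nonneg (Real.exp_pos _).le] at this
  rw [Real.exp_neg, ← mul_one (Real.exp x.lg)⁻¹, le_inv_mul_iff₀ (Real.exp_pos _)]
  exact this

theorem Model.key (M : Model Θ) {m n j : ℕ} {η : ℚ≥0} (hη : η ∈ TT (m + 2)) (hn : NN (m + 1) ≤ n)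
    (hj : Act n j) :
    ‖tau (fun m => Θ (mon m)) ((η, 0) + (quad j).p) ((η, 0) + (quad j).q) n -
      tau (fun m => Θ (mon m)) ((η, 0) + (quad j).p') ((η, 0) + (quad j).q') (n + 1)‖ ≤ aa n := by
  obtain ⟨k, hk, h1, h2⟩ := exists_stage hn
  have h3 := tau_diff' (fun m => Θ (mon ((η, 0) + m))) n j (R := Real.exp (k + 2)) fun ω b => by
    have h4 := M.gen_norm (root_ok (k := k + 1) h2 ⟨j, hj, Or.inr ⟨ω, b, rfl⟩⟩
      (TT_mono (by omega) hη))
    have e : sv (fun m => Θ (mon ((η, 0) + m))) n j ω b = Θ (mon (η, 0) * sv mon n j ω b) := by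
      simp only [sv, mul_add, mul_smul_comm, Finset.mul_sum, map_add, map_smul, map_sum, mon_add]
    rw [e]
    refine h4.trans (Real.exp_le_exp.mpr ?_)
    have : (0 : ℝ) ≤ ((k : ℝ) + 1 + 1) * (η : ℝ) := by positivity
    simp only [Gn.lg]
    push_cast
    linarith
  simp only [tau, ← add_assoc] at h3 ⊢
  refine h3.trans (div_le_div_of_nonneg_right (Real.le_sqrt_of_sq_le ?_) (by positivity))
  have h5 := (NN_good k).2.1
  have h6 : (NN (k + 1) : ℝ) ≤ n := by exact_mod_cast h1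
  rw [← pow_mul, ← Real.exp_nat_mul]
  push_cast
  linarith

theorem shift_sub {η : ℚ≥0} {m : Mon Idx} (h : η < m.1) : (η, 0) + (m.1 - η, m.2) = m := by
  ext1
  · simp only [Prod.fst_add]
    rw [add_tsub_cancel_of_le h.le]
  · simp

theorem Model.rel (M : Model Θ) {p q p' q' : Mon Idx} (hp : 0 < p.1) (hq : 0 < q.1)
    (hp' : 0 < p'.1) (hq' : 0 < q'.1) (he : p + q = p' + q') : ∀ᶠ n in atTop,
    ‖tau (fun m => Θ (mon m)) p q n - tau (fun m => Θ (mon m)) p' q' (n + 1)‖ ≤ aa n := by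
  obtain ⟨r, hr⟩ := exists_small (lt_min (lt_min hp hq) (lt_min hp' hq'))
  simp only [lt_min_iff] at hr
  obtain ⟨⟨h1, h2⟩, h3, h4⟩ := hr
  obtain ⟨j, hj⟩ := quad_surj ⟨(p.1 - 1 / 2 ^ r, p.2), (q.1 - 1 / 2 ^ r, q.2),
    (p'.1 - 1 / 2 ^ r, p'.2), (q'.1 - 1 / 2 ^ r, q'.2), tsub_pos_of_lt h1, tsub_pos_of_lt h2,
    tsub_pos_of_lt h3, tsub_pos_of_lt h4, by
      rw [← shift_sub h1, ← shift_sub h2, ← shift_sub h3, ← shift_sub h4, add_add_add_comm,
        add_add_add_comm _ (p'.1 - 1 / 2 ^ r, p'.2)] at he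
      ext1
      · have := congrArg Prod.fst he
        simp only [Prod.fst_add] at this ⊢
        exact add_left_cancel this
      · simpa using congrArg Prod.snd he⟩
  filter_upwards [act_ev j, eventually_ge_atTop (NN (r + 1))] with n hn hn'
  have := M.key (TT_mono (by omega) (TT_self r)) hn' hn
  rw [hj] at this
  simp only at this
  rwa [shift_sub h1, shift_sub h2, shift_sub h3, shift_sub h4] at this

variable (Θ) in
/-- The limits of the approximate diagonals. -/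
noncomputable def LL (p q : Mon Idx) : ProjTensor A :=
  limUnder atTop (tau (fun m => Θ (mon m)) p q)

theorem Model.tends (M : Model Θ) {p q : Mon Idx} (hp : 0 < p.1) (hq : 0 < q.1) :
    Tendsto (tau (fun m => Θ (mon m)) p q) atTop (𝓝 (LL Θ p q)) := by
  refine CauchySeq.tendsto_limUnder (cauchySeq_of_summable_dist ?_)
  refine Summable.of_norm_bounded_eventually_nat aa_summable ?_
  filter_upwards [M.rel hp hq hp hq rfl] with n hn
  rw [Real.norm_of_nonneg dist_nonneg, dist_eq_norm]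
  exact hn

theorem Model.LL_eq (M : Model Θ) {p q p' q' : Mon Idx} (hp : 0 < p.1) (hq : 0 < q.1)
    (hp' : 0 < p'.1) (hq' : 0 < q'.1) (he : p + q = p' + q') : LL Θ p q = LL Θ p' q' := by
  have h1 := (M.tends hp hq).sub ((M.tends hp' hq').comp (tendsto_add_atTop_nat 1))
  have h2 := squeeze_zero_norm' (M.rel hp hq hp' hq' he) aa_summable.tendsto_atTop_zero
  exact sub_eq_zero.mp (tendsto_nhds_unique h1 h2)

theorem pos_add (r : Mon Idx) {c : ℚ≥0} {p : Mon Idx} (hp : c < p.1) : c < (r + p).1 :=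
  lt_of_lt_of_le hp (by simp)

theorem pos_add' (r : Mon Idx) {c : ℚ≥0} {p : Mon Idx} (hp : c < p.1) : c < (p + r).1 :=
  lt_of_lt_of_le hp (by simp)

theorem Model.mon_mul (M : Model Θ) {m m' : Mon Idx} (h : 0 < m.1) (h' : 0 < m'.1) :
    Θ (mon (m + m')) = Θ (mon m) * Θ (mon m') := by
  rw [mon_add, M.mul _ (mon_Dg h) _ (mon_Dg h')]

theorem Model.LL_zero (M : Model Θ) {p q : Mon Idx} (hp : 1 < p.1) (hq : 0 < q.1) :
    LL Θ p q = 0 := by
  refine tendsto_nhds_unique (M.tends (one_pos.trans hp) hq) (tendsto_const_nhds.congr fun n => ?_)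
  simp only [tau, M.zero _ (mon_Dg (pos_add' _ hp)), ← tpL_apply, map_zero, zero_apply,
    Finset.sum_const_zero, smul_zero]

variable (Θ) in
/-- The splitting on the monoid algebra. -/
noncomputable def rho0 : Amb →ₗ[ℂ] ProjTensor A :=
  (Finsupp.linearCombination ℂ fun m : Mon Idx =>
    if 0 < m.1 then LL Θ (m.1 / 2, 0) (m.1 / 2, m.2) else 0).comp
    (AddMonoidAlgebra.coeffLinearEquiv ℂ).toLinearMap

theorem rho0_mon' (m : Mon Idx) :
    rho0 Θ (mon m) = if 0 < m.1 then LL Θ (m.1 / 2, 0) (m.1 / 2, m.2) else 0 := by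
  simp [rho0, mon]

theorem rho0_one : rho0 Θ 1 = 0 := by
  rw [← mon_zero, rho0_mon', if_neg (by simp)]

theorem half_add (m : Mon Idx) : ((m.1 / 2, 0) : Mon Idx) + (m.1 / 2, m.2) = m := by
  ext1 <;> simp

theorem Model.rho0_mon (M : Model Θ) {p q : Mon Idx} (hp : 0 < p.1) (hq : 0 < q.1) :
    rho0 Θ (mon (p + q)) = LL Θ p q := by
  have h := pos_add p hq
  rw [rho0_mon', if_pos h]
  exact M.LL_eq (half_pos h) (half_pos h) hp hq (half_add _)

theorem Model.rho0_zero (M : Model Θ) {w : Amb} (hw : w ∈ Dg 1) : rho0 Θ w = 0 := by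
  refine Sp_zero (Q := fun m => 1 < m.1) _ (fun m hm => ?_) hw
  obtain ⟨r, hr⟩ := exists_small (tsub_pos_of_lt hm)
  have h1 : 1 < m.1 - 1 / 2 ^ r := by
    rw [lt_tsub_iff_right] at hr ⊢
    rwa [add_comm]
  have h2 : 1 / 2 ^ r < m.1 := lt_of_lt_of_le hr tsub_le_self
  have h3 : (0 : ℚ≥0) < 1 / 2 ^ r := by positivity
  rw [← shift_sub h2, add_comm, M.rho0_mon (one_pos.trans h1) h3]
  exact M.LL_zero h1 h3

theorem Model.rho0_val (M : Model Θ) {x : Gn} (h : x.ok) :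
    ‖rho0 Θ x.val‖ ≤ Real.exp 1 + 1 := by
  obtain ⟨k, s, e, t⟩ := x
  have hs : (s, e) ∈ HH k := h.1
  have ht : t ∈ TT k := h.2
  have ht2 : 0 < t / 2 := half_pos (TT_pos ht)
  obtain ⟨hg1, hg2⟩ := (NN_good k).2.2 _ hs
  set N := NN (k + 1) with hN
  let G : Amb →ₗ[ℂ] ProjTensor A := ((4 : ℂ) ^ N)⁻¹ • ∑ i : Fin N → Fin 4,
    (tpL (Θ (mon ((t / 2, 0) + gen N i 1)))).toLinearMap ∘ₗ Θ ∘ₗ
      LinearMap.mulLeft ℂ (mon (t / 2, 0)) ∘ₗ LinearMap.mulRight ℂ (mon (gen N i (-1)))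
  have hG : ∀ w, G w = ((4 : ℂ) ^ N)⁻¹ • ∑ i : Fin N → Fin 4,
      tp (Θ (mon ((t / 2, 0) + gen N i 1))) (Θ (mon (t / 2, 0) * (w * mon (gen N i (-1))))) := by
    intro w
    simp only [G, LinearMap.smul_apply, LinearMap.sum_apply, LinearMap.comp_apply,
      LinearMap.mulLeft_apply, LinearMap.mulRight_apply, ContinuousLinearMap.coe_coe, tpL_apply]
  have h1 : ‖(G - (rho0 Θ).comp (LinearMap.mulLeft ℂ (mon (t, 0)))) s‖ ≤ l1 s * tail N := by
    refine norm_le_l1 _ s fun q hq => ?_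
    obtain ⟨j, hj, e1, e2, e3, e4⟩ := hg2 t ht q hq
    have e5 : ((t / 4, 0) : Mon Idx) + (t / 4, 0) = (t / 2, 0) := by
      ext1
      · simp only [Prod.fst_add]; ring
      · simp
    have e6 : ((t, 0) : Mon Idx) + q = (t / 2, 0) + ((t / 2, 0) + q) := by
      rw [← add_assoc]
      congr 1
      ext1 <;> simp
    have h4 : t / 4 ∈ TT (k + 2) := by
      have := TT_half (TT_half ht)
      rwa [div_div, show (2 : ℚ≥0) * 2 = 4 by norm_num] at this
    have h5 := (M.tends (p := (t / 2, 0)) (q := (t / 2, 0) + q) ht2 (pos_add' _ ht2)).comp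
      (tendsto_add_atTop_nat N)
    have h6 := dist_le_tsum_of_dist_le_of_tendsto₀ (fun n => aa (N + n)) (fun n => by
      have := M.key h4 (n := n + N) (by omega) (hj.mono (by omega))
      rw [e1, e2, e3, e4, ← add_assoc, e5] at this
      rw [dist_eq_norm, add_comm N n]
      simp only [Function.comp, Nat.succ_eq_add_one, add_right_comm n 1 N]
      exact this) (((summable_nat_add_iff N).mpr aa_summable).congr fun n => by rw [add_comm]) h5
    rw [LinearMap.sub_apply, LinearMap.comp_apply, LinearMap.mulLeft_apply, ← mon_add, e6,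
      M.rho0_mon ht2 (pos_add' _ ht2), hG, ← dist_eq_norm]
    rw [Function.comp_apply, zero_add] at h6
    simp only [tau, add_assoc, mon_add] at h6 ⊢
    exact h6
  let x1 : (Fin N → Fin 4) → Gn := fun i => ⟨k + 1, mon (gen N i 1), k + 1, t / 2⟩
  let x2 : (Fin N → Fin 4) → Gn := fun i => ⟨k + 1, s * mon (gen N i (-1)), e, t / 2⟩
  have h2 : ‖G s‖ ≤ Real.exp (1 - t - Gn.lg ⟨k, s, e, t⟩) := by
    rw [hG, norm_smul, norm_inv, norm_pow, Complex.norm_ofNat, inv_mul_le_iff₀ (by positivity)]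
    refine (norm_sum_le _ _).trans ((Finset.sum_le_card_nsmul _ _
      (Real.exp (1 - t - Gn.lg ⟨k, s, e, t⟩)) fun i _ => ?_).trans (by simp))
    have a1 := M.gen_norm (x := x1 i) ⟨Or.inr (Or.inl ⟨i, rfl⟩), TT_half ht⟩
    have a2 := M.gen_norm (x := x2 i) ⟨Or.inl ⟨(s, e), hs, i, rfl⟩, TT_half ht⟩
    refine (norm_tp_le _ _).trans ?_
    rw [mon_add]
    refine (mul_le_mul a1 a2 (norm_nonneg _) (Real.exp_pos _).le).trans (le_of_eq ?_)
    rw [← Real.exp_add]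
    congr 1
    simp only [x1, x2, Gn.lg]
    push_cast
    ring
  have h3 : ‖rho0 Θ (mon (t, 0) * s)‖ ≤
      Real.exp (1 - t - Gn.lg ⟨k, s, e, t⟩) + l1 s * tail N := by
    have := norm_sub_le (G s) ((G - (rho0 Θ).comp (LinearMap.mulLeft ℂ (mon (t, 0)))) s)
    rw [LinearMap.sub_apply, sub_sub_cancel] at this
    exact this.trans (add_le_add h2 h1)
  have h7 : Gn.lg ⟨k, s, e, t⟩ ≤ k := by
    have b1 : (t : ℝ) ≤ 1 := by exact_mod_cast TT_le ht
    have b2 : (e : ℝ) ≤ k := by exact_mod_cast (HH_basic hs).2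
    have b3 : (k : ℝ) * t ≤ k := mul_le_of_le_one_right (by positivity) b1
    simp only [Gn.lg]
    linarith
  have h8 : 0 ≤ l1 s * tail N :=
    mul_nonneg (Finset.sum_nonneg fun _ _ => norm_nonneg _) (tail_nonneg _)
  rw [Gn.val, map_smul, norm_smul, Complex.norm_real, Real.norm_of_nonneg (Real.exp_pos _).le]
  refine (mul_le_mul_of_nonneg_left h3 (Real.exp_pos _).le).trans ?_
  rw [mul_add, ← Real.exp_add]
  refine add_le_add (Real.exp_le_exp.mpr ?_) ?_
  · have : (0 : ℝ) ≤ t := by positivity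
    linarith
  · refine (mul_le_mul_of_nonneg_right (Real.exp_le_exp.mpr h7) h8).trans ?_
    rw [← mul_assoc]
    exact hg1

variable [IsScalarTower ℂ A A] [SMulCommClass ℂ A A]

theorem Model.LL_l (M : Model Θ) {r p q : Mon Idx} (hr : 0 < r.1) (hp : 0 < p.1) (hq : 0 < q.1) :
    lact (Θ (mon r)) (LL Θ p q) = LL Θ (r + p) q := by
  refine tendsto_nhds_unique (((lact (Θ (mon r))).continuous.tendsto _).comp (M.tends hp hq)) ?_
  refine (M.tends (pos_add r hp) hq).congr fun n => ?_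
  simp only [Function.comp, tau, map_smul, map_sum, lact_tp, add_assoc]
  congr 1
  refine Finset.sum_congr rfl fun i _ => ?_
  rw [M.mon_mul hr (pos_add' _ hp)]

theorem Model.LL_r (M : Model Θ) {r p q : Mon Idx} (hr : 0 < r.1) (hp : 0 < p.1) (hq : 0 < q.1) :
    ract (Θ (mon r)) (LL Θ p q) = LL Θ p (r + q) := by
  refine tendsto_nhds_unique (((ract (Θ (mon r))).continuous.tendsto _).comp (M.tends hp hq)) ?_
  refine (M.tends hp (pos_add r hq)).congr fun n => ?_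
  simp only [Function.comp, tau, map_smul, map_sum, ract_tp, add_assoc]
  congr 1
  refine Finset.sum_congr rfl fun i _ => ?_
  rw [M.mon_mul hr (pos_add' _ hq), mul_comm]

theorem Model.rho0_l (M : Model Θ) {w w' : Amb} (hw : w ∈ Dg 0) (hw' : w' ∈ Dg 0) :
    rho0 Θ (w * w') = lact (Θ w) (rho0 Θ w') := by
  refine Sp_ext (Q := fun m => 0 < m.1) ((rho0 Θ).comp (LinearMap.mulRight ℂ w'))
    ((lev (rho0 Θ w')).toLinearMap.comp Θ) (fun r hr => ?_) hw
  refine Sp_ext (Q := fun m => 0 < m.1) ((rho0 Θ).comp (LinearMap.mulLeft ℂ (mon r)))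
    ((lact (Θ (mon r))).toLinearMap.comp (rho0 Θ)) (fun m hm => ?_) hw'
  change rho0 Θ (mon r * mon m) = lact (Θ (mon r)) (rho0 Θ (mon m))
  rw [rho0_mon' m, if_pos hm, M.LL_l hr (half_pos hm) (half_pos hm),
    ← M.rho0_mon (pos_add' _ hr) (half_pos hm), add_assoc, half_add, mon_add]

theorem Model.rho0_r (M : Model Θ) {w w' : Amb} (hw : w ∈ Dg 0) (hw' : w' ∈ Dg 0) :
    rho0 Θ (w * w') = ract (Θ w) (rho0 Θ w') := by
  refine Sp_ext (Q := fun m => 0 < m.1) ((rho0 Θ).comp (LinearMap.mulRight ℂ w'))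
    ((rev (rho0 Θ w')).toLinearMap.comp Θ) (fun r hr => ?_) hw
  refine Sp_ext (Q := fun m => 0 < m.1) ((rho0 Θ).comp (LinearMap.mulLeft ℂ (mon r)))
    ((ract (Θ (mon r))).toLinearMap.comp (rho0 Θ)) (fun m hm => ?_) hw'
  change rho0 Θ (mon r * mon m) = ract (Θ (mon r)) (rho0 Θ (mon m))
  rw [rho0_mon' m, if_pos hm, M.LL_r hr (half_pos hm) (half_pos hm),
    ← M.rho0_mon (half_pos hm) (pos_add' _ hr), add_left_comm, half_add, mon_add]

theorem pr_val_pos {L : List Gn} (h : ∀ x ∈ L, x.ok) (hL : L ≠ []) : pr Gn.val L ∈ Dg 0 := by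
  obtain ⟨x, L, rfl⟩ := List.exists_cons_of_ne_nil hL
  rw [pr_cons, mul_comm]
  exact Dg_mul _ _ _ (val_pos (h x List.mem_cons_self))

theorem Model.rho0_SS (M : Model Θ) {w : Amb} (hw : w ∈ SS) : ‖rho0 Θ w‖ ≤ Real.exp 1 + 1 := by
  obtain ⟨L, h, rfl⟩ := hw
  rcases L with _ | ⟨x, L⟩
  · rw [pr_nil, rho0_one, norm_zero]
    positivity
  have hx := h x List.mem_cons_self
  have hL : ∀ y ∈ L, y.ok := fun y hy => h y (List.mem_cons_of_mem _ hy)
  by_cases h0 : L = []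
  · subst h0
    rw [pr_cons, pr_nil, mul_one]
    exact M.rho0_val hx
  · rw [pr_cons, mul_comm, M.rho0_l (pr_val_pos hL h0) (val_pos hx)]
    refine (norm_lact_le _ _).trans ?_
    have := mul_le_mul (M.one _ ⟨L, hL, rfl⟩ (pr_val_pos hL h0)) (M.rho0_val hx) (norm_nonneg _)
      zero_le_one
    rwa [one_mul] at this

variable [CompleteSpace A]

theorem Model.rho0_pi (M : Model Θ) {w : Amb} (hw : w ∈ Dg 0) : tprodMap (rho0 Θ w) = Θ w := by
  refine Sp_ext (Q := fun m => 0 < m.1) ((tprodMap (A := A)).toLinearMap.comp (rho0 Θ)) Θ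
    (fun m hm => ?_) hw
  change tprodMap (rho0 Θ (mon m)) = Θ (mon m)
  have hp : 0 < ((m.1 / 2, 0) : Mon Idx).1 := half_pos hm
  have hq : 0 < ((m.1 / 2, m.2) : Mon Idx).1 := half_pos hm
  rw [rho0_mon' m, if_pos hm]
  refine tendsto_nhds_unique ((tprodMap.continuous.tendsto _).comp (M.tends hp hq)) ?_
  refine tendsto_const_nhds.congr fun n => ?_
  simp only [Function.comp, tau, map_smul, map_sum, tprodMap_tp]
  have : ∀ i : Fin n → Fin 4, Θ (mon ((m.1 / 2, 0) + gen n i 1)) *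
      Θ (mon ((m.1 / 2, m.2) + gen n i (-1))) = Θ (mon m) := by
    intro i
    have h0 : gen n i 1 + gen n i (-1) = 0 := by simp [gen]
    rw [← M.mon_mul (pos_add' _ hp) (pos_add' _ hq), add_add_add_comm, h0, add_zero, half_add]
  simp only [this, Finset.sum_const, Finset.card_univ, Fintype.card_fun, Fintype.card_fin]
  rw [← Nat.cast_smul_eq_nsmul ℂ, smul_smul]
  push_cast
  rw [inv_mul_cancel₀ (pow_ne_zero _ (by norm_num)), one_smul]

theorem Model.biprojective (M : Model Θ) : Biprojective A := by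
  have hb : ∀ w : Dg 0, ‖((rho0 Θ).comp (Dg 0).subtype) w‖ ≤
      (Real.exp 1 + 1) * ‖(Θ.comp (Dg 0).subtype) w‖ := fun w =>
    univ_vec (SS : Set Amb) (Dg 1) (Dg 0) Θ M.univ (rho0 Θ) (by positivity)
      (fun s hs => M.rho0_SS hs) (fun w hw => M.rho0_zero hw) w.1 w.2
  let ρ : A →L[ℂ] ProjTensor A :=
    ((rho0 Θ).comp (Dg 0).subtype).extendOfNorm (Θ.comp (Dg 0).subtype)
  have hρ : ∀ w ∈ Dg 0, ρ (Θ w) = rho0 Θ w := fun w hw =>
    LinearMap.extendOfNorm_eq M.dense ⟨_, hb⟩ ⟨w, hw⟩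
  refine ⟨fun a => lact a, fun a => ract a, tprodMap, ρ, fun a => (lact a).isBoundedLinearMap,
    fun a => (ract a).isBoundedLinearMap, (tprodMap (A := A)).isBoundedLinearMap,
    ρ.isBoundedLinearMap, lact_tp, ract_tp, tprodMap_tp, fun a b => ?_, fun a b => ?_,
    fun a => ?_⟩
  · refine M.dense.induction_on b (isClosed_eq (by fun_prop) (by fun_prop)) fun w' => ?_
    refine M.dense.induction_on a (isClosed_eq (by fun_prop) (lev _).continuous) fun w => ?_
    change ρ (Θ w * Θ w') = lact (Θ w) (ρ (Θ w'))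
    rw [← M.mul _ w.2 _ w'.2, hρ _ (Dg_mul _ _ _ w'.2), hρ _ w'.2, M.rho0_l w.2 w'.2]
  · refine M.dense.induction_on a (isClosed_eq (by fun_prop) (by fun_prop)) fun w => ?_
    refine M.dense.induction_on b (isClosed_eq (by fun_prop) (rev _).continuous) fun w' => ?_
    change ρ (Θ w * Θ w') = ract (Θ w') (ρ (Θ w))
    rw [mul_comm, ← M.mul _ w'.2 _ w.2, hρ _ (Dg_mul _ _ _ w.2), hρ _ w.2, M.rho0_r w'.2 w.2]
  · refine M.dense.induction_on a (isClosed_eq (by fun_prop) (by fun_prop)) fun w => ?_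
    change tprodMap (ρ (Θ w)) = Θ w
    rw [hρ _ w.2, M.rho0_pi w.2]

end Pool.Agent.Lib.CM38
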